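import Mathlib
import Pool.Agent.X153.PG.Spiral
import Pool.Agent.X153.PG.Vieta

/-!
# MP_780082_co: the edge count of Bowen's spiral is the floor of the bound, for every order `k ≥ 7`

`spiral k n` (in `Pool.Agent.X153.PG.Spiral`) is the patch of the order-`k` triangular tiling formed
by the first `n` vertices `0, 1, …, n - 1` of the spiral: each new vertex is joined to the previous
vertex and to the current centre `cur`; if the centre thereby gets its `k`-th neighbour, the new
vertex is also joined to `cur + 1`, which becomes the next centre.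
`U a n` (in `Pool.Agent.X153.PG.Vieta`) is the bound `U_d(n)` with `a = π / α`; at `d = d(k)` one
has `a = k / 2`.

The key point: with `c` closed vertices among `n` the spiral has `2 n - 3 + c` edges, and
`2 n - 3 + c ≤ U` iff the symmetric form
`n² + c² - (k - 4) n c - 6 (n + c) + k + 6` is nonnegative; the number of vertices at the `c`-th
closure is the Vieta conjugate of the number of vertices closed at stage `c`.
-/

namespace Pool.Agent.Results.MP_780082_co.SpiralCount

open Pool.Agent.X153.PG UpperHalfPlane

/-- The number of touching pairs of the circles of diameter `d` centred at the points `p i`. -/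
noncomputable def contacts (d : ℝ) {n : ℕ} (p : Fin n → ℍ) : ℕ :=
  Nat.card {q : Fin n × Fin n // q.1 < q.2 ∧ dist (p q.1) (p q.2) = d}

/-- `m = e_d(n)`: the largest number of touching pairs among `n` points of the hyperbolic plane at
pairwise distances at least `d`. -/
def IsMaxContacts (d : ℝ) (n m : ℕ) : Prop :=
  IsGreatest {c | ∃ p : Fin n → ℍ, (∀ i j, i ≠ j → d ≤ dist (p i) (p j)) ∧ contacts d p = c} m

/-- For every `k ≥ 7` and `n ≥ 1` the spiral patch on `n` vertices has exactly `⌊U_{d(k)}(n)⌋`
edges; every vertex the spiral has passed has exactly `k` neighbours, and every vertex is passed at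
some stage. Consequently (last clause), wherever the spiral patch attains `e_{d(k)}(n)`, one has
`e_{d(k)}(n) = ⌊U_{d(k)}(n)⌋`. -/
theorem result :
    (∀ k n : ℕ, 7 ≤ k → 1 ≤ n →
      (((spiral k n).edges.card : ℕ) : ℤ) = ⌊U ((k : ℝ) / 2) n⌋) ∧
    (∀ k n v : ℕ, 7 ≤ k → v < (spiral k n).cur → deg (spiral k n).edges v = k) ∧
    (∀ k v : ℕ, 7 ≤ k → ∃ n, v < (spiral k n).cur) ∧
    (∀ (k n m : ℕ) (d : ℝ), 7 ≤ k → 1 ≤ n → 0 < d →
      Real.cos (2 * Real.pi / k) = Real.tanh (d / 2) / Real.tanh d →
      IsMaxContacts d n (spiral k n).edges.card →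
      (IsMaxContacts d n m ↔ (m : ℤ) = ⌊U ((k : ℝ) / 2) n⌋)) := by
  have h1 : ∀ k n : ℕ, 7 ≤ k → 1 ≤ n →
      (((spiral k n).edges.card : ℕ) : ℤ) = ⌊U ((k : ℝ) / 2) n⌋ := by
    intro k n hk hn
    obtain ⟨q, rfl⟩ : ∃ q, k = q + 4 := ⟨k - 4, by omega⟩
    exact floor_U q (by omega) n hn
  refine ⟨h1, ?_, ?_, ?_⟩
  · intro k n v hk hv
    obtain ⟨q, rfl⟩ : ∃ q, k = q + 4 := ⟨k - 4, by omega⟩
    rcases Nat.lt_or_ge n 2 with h2 | h2
    · have : (spiral (q + 4) n).cur = 0 := by
        interval_cases n <;> rfl
      omega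
    · exact (inv_all q (by omega) n h2).1.closed v hv
  · intro k v hk
    obtain ⟨q, rfl⟩ : ∃ q, k = q + 4 := ⟨k - 4, by omega⟩
    exact cur_unbounded q (by omega) v
  · intro k n m d hk hn _ _ hmax
    have h2 := h1 k n hk hn
    constructor
    · intro hm
      have : m = (spiral k n).edges.card := hm.unique hmax
      rw [this, h2]
    · intro hm
      have : m = (spiral k n).edges.card := by
        have : (m : ℤ) = (((spiral k n).edges.card : ℕ) : ℤ) := by rw [hm, h2]
        exact_mod_cast this
      rw [this]
      exact hmax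

end Pool.Agent.Results.MP_780082_co.SpiralCount
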